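import Pool.Agent.H773.IE.SR

/-! # A step of the Rauzy induction, the last top letter wins (project IE, GEOT) -/

set_option autoImplicit false

open MeasureTheory Set Filter Topology

namespace Pool.Agent.H282.IE

open Pool.Agent.H773.IE

section words

variable {n : ℕ} {T : ℝ → ℝ} {P : Fin n → Set ℝ} {τ : Fin n → ℝ}

theorem follows_append (u v : List (Fin n)) (x : ℝ) :
    Follows T P (u ++ v) x ↔ Follows T P u x ∧ Follows T P v (T^[u.length] x) := by
  induction u generalizing x with
  | nil => simp [Follows]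
  | cons j u ih =>
    simp only [List.cons_append, Follows, List.length_cons, Function.iterate_succ_apply, ih,
      and_assoc]

theorem iterate_follows (hT : ∀ j, ∀ x ∈ P j, T x = x + τ j) (u : List (Fin n)) (x : ℝ)
    (h : Follows T P u x) : T^[u.length] x = x + tr τ u := by
  induction u generalizing x with
  | nil => simp [tr]
  | cons j u ih =>
    rw [List.length_cons, Function.iterate_succ_apply, ih _ h.2, hT j x h.1]
    simp only [tr, List.map_cons, List.sum_cons]
    ring

theorem tr_append (u v : List (Fin n)) : tr τ (u ++ v) = tr τ u + tr τ v := by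
  simp only [tr, List.map_append, List.sum_append]

end words

variable {m : ℕ}

theorem fst_et (s : Sta m) : s.1 (et s) = Fin.last m := Equiv.apply_symm_apply _ _

theorem snd_eb (s : Sta m) : s.2 (eb s) = Fin.last m := Equiv.apply_symm_apply _ _

theorem uT_et (s : Sta m) (lam : Fin (m + 1) → ℝ) :
    uT s lam (et s) + lam (et s) = ∑ j, lam j := by
  have h : Finset.univ.filter (fun j => s.1 j < s.1 (et s)) = Finset.univ.erase (et s) := by
    ext j
    rw [Finset.mem_filter, Finset.mem_erase, fst_et, Fin.lt_last_iff_ne_last]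
    constructor
    · rintro ⟨_, h2⟩
      exact ⟨fun h3 => h2 (by rw [h3, fst_et]), Finset.mem_univ _⟩
    · rintro ⟨h1, _⟩
      exact ⟨Finset.mem_univ _, fun h3 => h1 (by rw [← fst_et s] at h3; exact s.1.injective h3)⟩
  unfold uT
  rw [h, Finset.sum_erase_add _ _ (Finset.mem_univ _)]

theorem uB_eb (s : Sta m) (lam : Fin (m + 1) → ℝ) :
    uB s lam (eb s) + lam (eb s) = ∑ j, lam j := by
  have h : Finset.univ.filter (fun j => s.2 j < s.2 (eb s)) = Finset.univ.erase (eb s) := by
    ext j
    rw [Finset.mem_filter, Finset.mem_erase, snd_eb, Fin.lt_last_iff_ne_last]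
    constructor
    · rintro ⟨_, h2⟩
      exact ⟨fun h3 => h2 (by rw [h3, snd_eb]), Finset.mem_univ _⟩
    · rintro ⟨h1, _⟩
      exact ⟨Finset.mem_univ _, fun h3 => h1 (by rw [← snd_eb s] at h3; exact s.2.injective h3)⟩
  unfold uB
  rw [h, Finset.sum_erase_add _ _ (Finset.mem_univ _)]

theorem nxtL_true (s : Sta m) (lam : Fin (m + 1) → ℝ) (j : Fin (m + 1)) :
    nxtL s true lam j = lam j - if j = et s then lam (eb s) else 0 := by
  unfold nxtL win los
  simp only [if_true]
  rw [Function.update_apply]
  split_ifs with h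
  · rw [h]
  · rw [sub_zero]

theorem sum_nxtL_true (s : Sta m) (lam : Fin (m + 1) → ℝ) (F : Finset (Fin (m + 1))) :
    ∑ j ∈ F, nxtL s true lam j = ∑ j ∈ F, lam j - if et s ∈ F then lam (eb s) else 0 := by
  simp only [nxtL_true, Finset.sum_sub_distrib, Finset.sum_ite_eq']

theorem uT_nxt (s : Sta m) (lam : Fin (m + 1) → ℝ) (i : Fin (m + 1)) :
    uT (nxt s true) (nxtL s true lam) i = uT s lam i := by
  have h1 : (nxt s true).1 = s.1 := rfl
  unfold uT
  rw [h1, sum_nxtL_true, if_neg, sub_zero]
  rw [Finset.mem_filter, fst_et]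
  rintro ⟨_, h⟩
  exact absurd h (not_lt.2 (Fin.le_last _))

section uB

variable (s : Sta m) (lam : Fin (m + 1) → ℝ) (hne : et s ≠ eb s)

include hne in
theorem snd_et_ne : s.2 (et s) ≠ Fin.last m := by
  intro h
  rw [← snd_eb s] at h
  exact hne (s.2.injective h)

include hne in
theorem uB_le (i : Fin (m + 1)) (hi : (s.2 i : ℕ) ≤ (s.2 (et s) : ℕ)) :
    uB (nxt s true) (nxtL s true lam) i = uB s lam i := by
  have h1 : (nxt s true).2 = ins s.2 (et s) := rfl
  have hv := ins_val s.2 (et s) (snd_et_ne s hne)
  have hF : Finset.univ.filter (fun j => ins s.2 (et s) j < ins s.2 (et s) i) =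
      Finset.univ.filter (fun j => s.2 j < s.2 i) := by
    ext j
    rw [Finset.mem_filter, Finset.mem_filter, Fin.lt_def, Fin.lt_def, hv j, hv i, if_pos hi]
    split_ifs <;> simp only [Finset.mem_univ, true_and] <;> omega
  unfold uB
  rw [h1, hF, sum_nxtL_true, if_neg, sub_zero]
  rw [Finset.mem_filter, Fin.lt_def]
  omega

include hne in
theorem uB_be : uB (nxt s true) (nxtL s true lam) (eb s) =
    uB s lam (et s) + lam (et s) - lam (eb s) := by
  have h1 : (nxt s true).2 = ins s.2 (et s) := rfl
  have hv := ins_val s.2 (et s) (snd_et_ne s hne)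
  have hlt : (s.2 (et s) : ℕ) < m := by
    have h2 := snd_et_ne s hne
    rw [← Fin.lt_last_iff_ne_last, Fin.lt_def, Fin.val_last] at h2
    exact h2
  have hbe : (ins s.2 (et s) (eb s) : ℕ) = (s.2 (et s) : ℕ) + 1 := by
    rw [hv, snd_eb, Fin.val_last, if_neg (by omega), if_pos rfl]
  have hF : Finset.univ.filter (fun j => ins s.2 (et s) j < ins s.2 (et s) (eb s)) =
      insert (et s) (Finset.univ.filter (fun j => s.2 j < s.2 (et s))) := by
    ext j
    rw [Finset.mem_filter, Finset.mem_insert, Finset.mem_filter, Fin.lt_def, Fin.lt_def, hbe,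
      hv j]
    have h3 : j = et s ↔ (s.2 j : ℕ) = (s.2 (et s) : ℕ) := by
      rw [← Fin.ext_iff, s.2.injective.eq_iff]
    rw [h3]
    simp only [Finset.mem_univ, true_and]
    split_ifs <;> omega
  have h4 : et s ∉ Finset.univ.filter (fun j => s.2 j < s.2 (et s)) := by
    rw [Finset.mem_filter]
    rintro ⟨_, h⟩
    exact lt_irrefl _ h
  unfold uB
  rw [h1, hF, sum_nxtL_true, if_pos (Finset.mem_insert_self _ _), Finset.sum_insert h4]
  ring

include hne in
theorem uB_gt (i : Fin (m + 1)) (hi : (s.2 (et s) : ℕ) < (s.2 i : ℕ)) (hib : i ≠ eb s) :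
    uB (nxt s true) (nxtL s true lam) i = uB s lam i := by
  have h1 : (nxt s true).2 = ins s.2 (et s) := rfl
  have hv := ins_val s.2 (et s) (snd_et_ne s hne)
  have hil : s.2 i ≠ Fin.last m := by
    intro h
    rw [← snd_eb s] at h
    exact hib (s.2.injective h)
  have hilm : (s.2 i : ℕ) < m := by
    have h2 := hil
    rw [← Fin.lt_last_iff_ne_last, Fin.lt_def, Fin.val_last] at h2
    exact h2
  have hii : (ins s.2 (et s) i : ℕ) = (s.2 i : ℕ) + 1 := by
    rw [hv, if_neg (by omega), if_neg hil]
  have hF : Finset.univ.filter (fun j => ins s.2 (et s) j < ins s.2 (et s) i) =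
      insert (eb s) (Finset.univ.filter (fun j => s.2 j < s.2 i)) := by
    ext j
    rw [Finset.mem_filter, Finset.mem_insert, Finset.mem_filter, Fin.lt_def, Fin.lt_def, hii,
      hv j]
    have h3 : j = eb s ↔ s.2 j = Fin.last m := by
      rw [← snd_eb s, s.2.injective.eq_iff]
    have h5 : s.2 j = Fin.last m ↔ (s.2 j : ℕ) = m := by
      rw [Fin.ext_iff, Fin.val_last]
    simp only [h3, h5, Finset.mem_univ, true_and]
    split_ifs <;> omega
  have h4 : eb s ∉ Finset.univ.filter (fun j => s.2 j < s.2 i) := by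
    rw [Finset.mem_filter, snd_eb]
    rintro ⟨_, h⟩
    exact absurd h (not_lt.2 (Fin.le_last _))
  unfold uB
  rw [h1, hF, sum_nxtL_true, if_pos, Finset.sum_insert h4]
  · ring
  · rw [Finset.mem_insert, Finset.mem_filter, Fin.lt_def]
    exact Or.inr ⟨Finset.mem_univ _, hi⟩

include hne in
theorem uB_nxt (i : Fin (m + 1)) (hib : i ≠ eb s) :
    uB (nxt s true) (nxtL s true lam) i = uB s lam i := by
  by_cases h : (s.2 i : ℕ) ≤ (s.2 (et s) : ℕ)
  · exact uB_le s lam hne i h
  · exact uB_gt s lam hne i (not_le.1 h) hib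

end uB

theorem t_geoT : S_geoT := by
  intro m T P τ hT s lam w hne hG hlt
  have hne' : eb s ≠ et s := fun h => hne h.symm
  have hwbe : nxtW s true w (eb s) = w (eb s) ++ w (et s) := by
    unfold nxtW los
    simp only [if_true, Function.update_self]
  have hwi : ∀ i, i ≠ eb s → nxtW s true w i = w i := by
    intro i hi
    unfold nxtW los
    simp only [if_true]
    rw [Function.update_of_ne hi]
  have hTe := uT_et s lam
  have hBe := uB_eb s lam
  have hle : ∀ i, nxtL s true lam i ≤ lam i := by
    intro i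
    rw [nxtL_true]
    have := hG.pos (eb s)
    split_ifs <;> linarith
  have hLbe : nxtL s true lam (eb s) = lam (eb s) := by
    rw [nxtL_true, if_neg hne', sub_zero]
  have hit : ∀ x ∈ Ico (uT s lam (eb s)) (uT s lam (eb s) + lam (eb s)),
      T^[(w (eb s)).length] x = x + (uB s lam (eb s) - uT s lam (eb s)) := by
    intro x hx
    rw [iterate_follows hT _ _ (hG.itin _ x hx), hG.ret]
  refine ⟨?_, ?_, ?_, ?_⟩
  · intro i
    rw [nxtL_true]
    split_ifs with h
    · rw [h]
      linarith
    · rw [sub_zero]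
      exact hG.pos i
  · intro i x hx
    rw [uT_nxt] at hx
    have hx' : x ∈ Ico (uT s lam i) (uT s lam i + lam i) :=
      ⟨hx.1, lt_of_lt_of_le hx.2 (by have := hle i; linarith)⟩
    by_cases hi : i = eb s
    · subst hi
      rw [hwbe, follows_append]
      refine ⟨hG.itin _ x hx', ?_⟩
      rw [hit x hx']
      refine hG.itin _ _ ⟨?_, ?_⟩
      · have := hx'.1
        linarith
      · have := hx'.2
        linarith
    · rw [hwi i hi]
      exact hG.itin i x hx'
  · intro i
    rw [uT_nxt]
    by_cases hi : i = eb s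
    · subst hi
      rw [hwbe, tr_append, hG.ret, hG.ret, uB_be s lam hne]
      linarith
    · rw [hwi i hi, uB_nxt s lam hne i hi]
      exact hG.ret i
  · intro y hy
    obtain ⟨i, x, hx, l, hl, hxy⟩ := hG.cover y hy
    by_cases hi : i = et s
    · subst hi
      by_cases hx2 : x < uT s lam (et s) + (lam (et s) - lam (eb s))
      · refine ⟨et s, x, ?_, l, ?_, hxy⟩
        · rw [uT_nxt, nxtL_true, if_pos rfl]
          exact ⟨hx.1, hx2⟩
        · rw [hwi _ hne]
          exact hl
      · push Not at hx2
        have hx' : x - (uB s lam (eb s) - uT s lam (eb s)) ∈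
            Ico (uT s lam (eb s)) (uT s lam (eb s) + lam (eb s)) := by
          refine ⟨by linarith, ?_⟩
          have := hx.2
          linarith
        refine ⟨eb s, x - (uB s lam (eb s) - uT s lam (eb s)), ?_, l + (w (eb s)).length, ?_, ?_⟩
        · rw [uT_nxt, hLbe]
          exact hx'
        · rw [hwbe, List.length_append]
          omega
        · rw [Function.iterate_add_apply, hit _ hx', sub_add_cancel]
          exact hxy
    · refine ⟨i, x, ?_, l, ?_, hxy⟩
      · rw [uT_nxt, nxtL_true, if_neg hi, sub_zero]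
        exact hx
      · by_cases hib : i = eb s
        · subst hib
          rw [hwbe, List.length_append]
          omega
        · rw [hwi i hib]
          exact hl

end Pool.Agent.H282.IE
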